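import Mathlib
import Pool.Agent.H.MP_563419_an.B

open Set MvPolynomial

namespace Pool.Agent.Results.MP_563419_an.Counter

/-- Algebraic overshear density property of the affine variety with coordinate ring `R`. -/
def AODP (R : Type) [CommRing R] [Algebra ℂ R] : Prop :=
  LieSubalgebra.lieSpan ℂ (Derivation ℂ R R)
    {V | ∃ (Θ : Derivation ℂ R R) (f : R), (∀ g, ∃ k ≥ 1, Θ^[k] g = 0) ∧ Θ (Θ f) = 0 ∧ V = f • Θ} = ⊤

abbrev R := MvPolynomial (Fin 2) ℂ

lemma lnd (i : Fin 2) (g : R) : ∃ k ≥ 1, (pderiv i : Derivation ℂ R R)^[k] g = 0 := by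
  have z : ∀ k, (pderiv i : Derivation ℂ R R)^[k] (0 : R) = 0 := fun k =>
    Function.iterate_fixed (map_zero _) k
  have ad : ∀ k (a b : R), (pderiv i : Derivation ℂ R R)^[k] (a + b) =
      (pderiv i : Derivation ℂ R R)^[k] a + (pderiv i : Derivation ℂ R R)^[k] b := fun k => by
    induction k with
    | zero => simp
    | succ k ih => intro a b; simp only [Function.iterate_succ_apply, map_add, ih]
  induction g using MvPolynomial.induction_on' with
  | monomial s c =>
    induction h : s i generalizing s c with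
    | zero => exact ⟨1, le_rfl, by simp [pderiv_monomial, h]⟩
    | succ n ih =>
      obtain ⟨k, -, hk⟩ := ih (s - Finsupp.single i 1) (c * s i) (by simp [h])
      exact ⟨k + 1, by omega, by rw [Function.iterate_succ_apply, pderiv_monomial, hk]⟩
  | add a b ha hb =>
    obtain ⟨k, k1, hk⟩ := ha
    obtain ⟨l, -, hl⟩ := hb
    refine ⟨l + k, by omega, ?_⟩
    rw [ad, Function.iterate_add_apply, hk, z, add_comm l k, Function.iterate_add_apply, hl, z,
      add_zero]

lemma aodp : AODP R := by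
  unfold AODP
  set L := LieSubalgebra.lieSpan ℂ (Derivation ℂ R R) _
  have g : ∀ (i : Fin 2) (f : R), pderiv i (pderiv i f) = 0 →
      f • (pderiv i : Derivation ℂ R R) ∈ L := fun i f h =>
    LieSubalgebra.subset_lieSpan ⟨pderiv i, f, lnd i, h, rfl⟩
  have br : ∀ f h : R, ⁅f • (pderiv 1 : Derivation ℂ R R), h • (pderiv 0 : Derivation ℂ R R)⁆ =
      (f * pderiv 1 h) • (pderiv 0 : Derivation ℂ R R) -
        (h * pderiv 0 f) • (pderiv 1 : Derivation ℂ R R) := fun f h => by
    refine derivation_ext fun i => ?_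
    fin_cases i <;> simp [Derivation.commutator_apply]
  have key : ∀ (i j : Fin 2), i ≠ j → (∀ f h : R,
      f • (pderiv j : Derivation ℂ R R) ∈ L → h • (pderiv i : Derivation ℂ R R) ∈ L →
      (f * pderiv j h) • (pderiv i : Derivation ℂ R R) -
        (h * pderiv i f) • (pderiv j : Derivation ℂ R R) ∈ L) → ∀ a b : ℕ,
      (X i ^ a * X j ^ b : R) • (pderiv i : Derivation ℂ R R) ∈ L := fun i j hij H a b => by
    have e1 : pderiv i (X j : R) = 0 := pderiv_X_of_ne hij.symm
    have e2 : pderiv j (X i : R) = 0 := pderiv_X_of_ne hij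
    rcases a with _ | a
    · exact g _ _ (by simp [e1])
    · have h1 := H (X i ^ a) (X i * X j ^ (b + 1)) (g _ _ (by simp [e2])) (g _ _ (by simp [e1]))
      have h2 := H (X i ^ a * X j) (X i * X j ^ b) (g _ _ (by simp [e2])) (g _ _ (by simp [e1]))
      have e : (X i ^ (a + 1) * X j ^ b : R) • (pderiv i : Derivation ℂ R R) =
          ((X i ^ a * pderiv j (X i * X j ^ (b + 1) : R)) • (pderiv i : Derivation ℂ R R) -
            (X i * X j ^ (b + 1) * pderiv i (X i ^ a : R)) • (pderiv j : Derivation ℂ R R)) -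
          ((X i ^ a * X j * pderiv j (X i * X j ^ b : R)) • (pderiv i : Derivation ℂ R R) -
            (X i * X j ^ b * pderiv i (X i ^ a * X j : R)) • (pderiv j : Derivation ℂ R R)) := by
        refine derivation_ext fun k => ?_
        simp only [Derivation.sub_apply, Derivation.smul_apply, smul_eq_mul]
        rcases b with _ | b <;> simp [e1, e2] <;> ring
      exact e ▸ L.sub_mem h1 h2
  have all : ∀ (i j : Fin 2), (∀ s : Fin 2 →₀ ℕ, monomial s (1 : ℂ) = X i ^ s i * X j ^ s j) →
      (∀ a b : ℕ, (X i ^ a * X j ^ b : R) • (pderiv i : Derivation ℂ R R) ∈ L) → ∀ f : R,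
      f • (pderiv i : Derivation ℂ R R) ∈ L := fun i j h1 h2 f => by
    induction f using MvPolynomial.induction_on' with
    | monomial s c =>
      have := L.smul_mem c (h2 (s i) (s j))
      rwa [← h1, ← smul_assoc, smul_monomial, smul_eq_mul, mul_one] at this
    | add a b ha hb => rw [add_smul]; exact L.add_mem ha hb
  have m : ∀ s : Fin 2 →₀ ℕ, monomial s (1 : ℂ) = X 0 ^ s 0 * X 1 ^ s 1 := fun s => by
    simp [monomial_eq, Finsupp.prod_fintype]
  have a0 := all 0 1 m (key 0 1 (by simp) fun f h hf hh => br f h ▸ L.lie_mem hf hh)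
  have a1 := all 1 0 (fun s => by rw [m, mul_comm]) (key 1 0 (by simp) fun f h hf hh => by
    have := L.neg_mem (L.lie_mem hh hf)
    rwa [br, neg_sub] at this)
  refine eq_top_iff.2 fun D _ => ?_
  have : D = D (X 0) • (pderiv 0 : Derivation ℂ R R) + D (X 1) • (pderiv 1 : Derivation ℂ R R) :=
    derivation_ext fun i => by fin_cases i <;> simp
  rw [this]
  exact L.add_mem (a0 _) (a1 _)

theorem result : AODP (MvPolynomial (Fin 2) ℂ) ∧
    ∃ (I J : Ideal (MvPolynomial (Fin 2) ℂ)) (P Q : Fin 2 → MvPolynomial (Fin 2) ℂ),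
      I = Ideal.span {X 0 * X 1 - 1} ∧ J = Ideal.span {X 0 ^ 2 * X 1 - 1} ∧
      (∀ z ∈ zeroLocus ℂ I, (fun i => eval z (P i)) ∈ zeroLocus ℂ J ∧
        (fun i => eval (fun i => eval z (P i)) (Q i)) = z) ∧
      (∀ z ∈ zeroLocus ℂ J, (fun i => eval z (Q i)) ∈ zeroLocus ℂ I ∧
        (fun i => eval (fun i => eval z (Q i)) (P i)) = z) ∧
      ¬∃ Φ : (Fin 2 → ℂ) ≃ (Fin 2 → ℂ), Differentiable ℂ Φ ∧ Differentiable ℂ Φ.symm ∧
        ∀ z ∈ zeroLocus ℂ I, Φ z = fun i => eval z (P i) := by
  refine ⟨aodp, _, _, ![X 0, X 1 ^ 2], ![X 0, X 0 * X 1], rfl, rfl, fun z hz => ?_, fun z hz => ?_,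
    fun ⟨Φ, d1, d2, h⟩ => H.MP_563419_an.main Φ d1 d2 fun z hz => ?_⟩
  · have : z 0 * z 1 = 1 := by simpa [zeroLocus_span, sub_eq_zero] using hz
    refine ⟨by simp [zeroLocus_span, ← mul_pow, this], funext fun i => ?_⟩
    fin_cases i
    · simp
    · simp only [Fin.mk_one, Matrix.cons_val_one, Matrix.cons_val_zero, map_mul, map_pow, eval_X]
      linear_combination z 1 * this
  · have : z 0 ^ 2 * z 1 = 1 := by simpa [zeroLocus_span, sub_eq_zero] using hz
    refine ⟨by simp [zeroLocus_span, ← mul_assoc, ← sq, this], funext fun i => ?_⟩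
    fin_cases i
    · simp
    · simp only [Fin.mk_one, Matrix.cons_val_one, Matrix.cons_val_zero, map_mul, map_pow, eval_X]
      linear_combination z 1 * this
  · rw [h z (by simp [zeroLocus_span, hz])]
    ext i
    fin_cases i <;> simp

end Pool.Agent.Results.MP_563419_an.Counter
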